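import Pool.Agent.helper41.HFE.Spec
import Pool.Agent.helper93.HFN.TWO

/-!
# Row CIY of project HFE (MP_3221a1_ag)
-/

set_option autoImplicit false

open Polynomial Module Pool.Agent.HFN

namespace Pool.Agent.HFE

noncomputable section

theorem CIY (hCIX : CIX_stmt) : CIY_stmt := by
  intro J F G s t m n h1 h2 hrp hF hG hdF ht hs
  have h := hCIX (J.comap (sw : AA →+* AA)) (sw F) (sw G) t s n m
    (by
      show sw (sw F) ∈ J
      rw [sw_sw]
      exact h1)
    (by
      show sw (sw G) ∈ J
      rw [sw_sw]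
      exact h2)
    (TWO_rp hrp)
    (fun h0 => hF ((map_eq_zero_iff sw sw.injective).1 h0))
    (sw_mem_V.2 hG)
    (by
      rw [dX_sw]
      exact hdF)
    ht
    (by
      rw [dY_sw]
      exact hs)
  rw [TWO_hd, TWO_hd] at h
  exact h

end

end Pool.Agent.HFE
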