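import Pool.Agent.helper41.HFE.Spec

/-!
# Row DEF of project HFE (MP_3221a1_ag)
-/

set_option autoImplicit false

open Polynomial Module Pool.Agent.HFN

namespace Pool.Agent.HFE

noncomputable section

theorem DEF_Wt (Z : Finset (ℂ × ℂ)) : Wt Z two = 3 * Z.card := by
  unfold Wt
  have h : ∀ z ∈ Z, wt (two z) = 3 := by
    intro z _
    rfl
  rw [Finset.sum_congr rfl h, Finset.sum_const, smul_eq_mul, mul_comm]

theorem DEF (hDFQ : DFQ_stmt) (hCDJ : CDJ_stmt) : DEF_stmt := by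
  intro Z i j
  obtain ⟨h1, h2⟩ := hCDJ Z two (fun _ => le_refl 2)
  have h3 := hDFQ (JJ Z two) h1 i j
  rw [h2, DEF_Wt] at h3
  unfold HH df
  have h4 : ((finrank ℂ (AA ⧸ (V i j ⊔ (JJ Z two).restrictScalars ℂ : Submodule ℂ AA)) : ℕ) : ℤ) + ((i + 1) * (j + 1) : ℕ) =
      hd (JJ Z two) i j + 3 * (Z.card : ℤ) := by
    exact_mod_cast h3
  linarith

end

end Pool.Agent.HFE
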