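import Pool.Agent.helper41.HFE.Spec

/-!
# Row GE1 of project HFE (MP_3221a1_ag)
-/

set_option autoImplicit false

open Polynomial Module Pool.Agent.HFN

namespace Pool.Agent.HFE

noncomputable section

theorem GE1_quad (A B C x y z : ℂ) (hxy : x ≠ y) (hxz : x ≠ z) (hyz : y ≠ z) (h1 : A * x ^ 2 + B * x + C = 0)
    (h2 : A * y ^ 2 + B * y + C = 0) (h3 : A * z ^ 2 + B * z + C = 0) : A = 0 ∧ B = 0 ∧ C = 0 := by
  have e1 : (x - y) * (A * (x + y) + B) = 0 := by linear_combination h1 - h2
  have e2 : (x - z) * (A * (x + z) + B) = 0 := by linear_combination h1 - h3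
  have f1 : A * (x + y) + B = 0 := by
    rcases mul_eq_zero.1 e1 with h | h
    · exact absurd (sub_eq_zero.1 h) hxy
    · exact h
  have f2 : A * (x + z) + B = 0 := by
    rcases mul_eq_zero.1 e2 with h | h
    · exact absurd (sub_eq_zero.1 h) hxz
    · exact h
  have e3 : A * (y - z) = 0 := by linear_combination f1 - f2
  have hA : A = 0 := by
    rcases mul_eq_zero.1 e3 with h | h
    · exact h
    · exact absurd (sub_eq_zero.1 h) hyz
  have hB : B = 0 := by
    rw [hA, zero_mul, zero_add] at f1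
    exact f1
  refine ⟨hA, hB, ?_⟩
  rw [hA, hB, zero_mul, zero_mul, zero_add, zero_add] at h1
  exact h1

theorem GE1_prop (a c a' c' : ℂ) (h : a ≠ 0 ∨ c ≠ 0) (he : a * c' = a' * c) : ∃ k : ℂ, a' = k * a ∧ c' = k * c := by
  by_cases ha : a = 0
  · have hc : c ≠ 0 := by
      rcases h with h | h
      · exact absurd ha h
      · exact h
    refine ⟨c' / c, ?_, ?_⟩
    · rw [ha, zero_mul] at he
      rcases mul_eq_zero.1 he.symm with h1 | h1
      · rw [h1, ha, mul_zero]
      · exact absurd h1 hc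
    · field_simp
  · refine ⟨a' / a, ?_, ?_⟩
    · field_simp
    · field_simp
      linear_combination he

theorem GE1 : GE1_stmt := by
  intro a b c d a' b' c' d' u w h0 h0' hu h1 h2
  have hR : ∀ k, (a * c' - a' * c) * u k ^ 2 + (a * d' + b * c' - a' * d - b' * c) * u k + (b * d' - b' * d) = 0 := by
    intro k
    linear_combination (a * u k + b) * h2 k - (a' * u k + b') * h1 k
  have n1 : u 0 ≠ u 1 := fun h => absurd (hu h) (by decide)
  have n2 : u 0 ≠ u 2 := fun h => absurd (hu h) (by decide)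
  have n3 : u 1 ≠ u 2 := fun h => absurd (hu h) (by decide)
  obtain ⟨hA, hB, hC⟩ := GE1_quad _ _ _ _ _ _ n1 n2 n3 (hR 0) (hR 1) (hR 2)
  have hac : a ≠ 0 ∨ c ≠ 0 := by
    by_contra h
    push Not at h
    exact h0 (by rw [h.1, h.2]; ring)
  have hbd : b ≠ 0 ∨ d ≠ 0 := by
    by_contra h
    push Not at h
    exact h0 (by rw [h.1, h.2]; ring)
  obtain ⟨k, k1, k2⟩ := GE1_prop a c a' c' hac (by linear_combination hA)
  obtain ⟨l, l1, l2⟩ := GE1_prop b d b' d' hbd (by linear_combination hC)
  have hkl : (l - k) * (a * d - b * c) = 0 := by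
    rw [k1, k2, l1, l2] at hB
    linear_combination hB
  have hlk : l = k := by
    rcases mul_eq_zero.1 hkl with h | h
    · exact sub_eq_zero.1 h
    · exact absurd h h0
  refine ⟨k, ?_, k1, by rw [l1, hlk], k2, by rw [l2, hlk]⟩
  intro hk
  apply h0'
  rw [k1, k2, hk]
  ring

end

end Pool.Agent.HFE
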